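import Pool.Agent.Lib.MP_f99268_lc.Defs

/-!
# Separations and completions of zigzag cycles
-/

namespace Pool.Agent.MP_f99268_lc

open Classical

variable {ι : Type} {ar : ι → ℕ} {D : Type}

/-- A separation for `Δ`: an invariant and hereditary relation `K X Y` (`X` lies below `Y`) between
disjoint finite sets with the following properties. A finite set that lies on one side of `X` can be
moved over `X` to the same side of any finite set `S ⊇ X`. If `Y` and `Y'` lie on the same side of
`S`, then `Y'` can be moved over `S` such that the union lies on this side. With finitely many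
constants `c` one can define regions `P` and `Q`, both containing copies of all finite
substructures, such that the finite subsets of `P` lie below the finite subsets of `Q`. -/
structure Separation (Δ : Str ι ar D) (K : Finset D → Finset D → Prop) : Prop where
  inv : ∀ g : Equiv.Perm D, IsAut Δ g → ∀ X Y, K X Y → K (X.image g) (Y.image g)
  mono : ∀ X X' Y Y', X ⊆ X' → Y ⊆ Y' → K X' Y' → K X Y
  disj : ∀ X Y, K X Y → Disjoint X Y
  empty : ∀ X, K ∅ X ∧ K X ∅
  above : ∀ S X Y, X ⊆ S → K X Y →
    ∃ g : Equiv.Perm D, IsAut Δ g ∧ (∀ x ∈ X, g x = x) ∧ K S (Y.image g)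
  below : ∀ S X Y, X ⊆ S → K Y X →
    ∃ g : Equiv.Perm D, IsAut Δ g ∧ (∀ x ∈ X, g x = x) ∧ K (Y.image g) S
  join_above : ∀ S Y Y', K S Y → K S Y' →
    ∃ g : Equiv.Perm D, IsAut Δ g ∧ (∀ s ∈ S, g s = s) ∧ K S (Y ∪ Y'.image g)
  join_below : ∀ S Y Y', K Y S → K Y' S →
    ∃ g : Equiv.Perm D, IsAut Δ g ∧ (∀ s ∈ S, g s = s) ∧ K (Y ∪ Y'.image g) S
  regions : ∃ (c : Finset D) (P Q : Set D),
    (∀ g : Equiv.Perm D, IsAut Δ g → (∀ a ∈ c, g a = a) → (∀ x ∈ P, g x ∈ P) ∧ ∀ x ∈ Q, g x ∈ Q) ∧
    (∀ A : Finset D, ∃ g : Equiv.Perm D, IsAut Δ g ∧ ∀ a ∈ A, g a ∈ P) ∧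
    (∀ A : Finset D, ∃ g : Equiv.Perm D, IsAut Δ g ∧ ∀ a ∈ A, g a ∈ Q) ∧
    ∀ X Y : Finset D, (∀ x ∈ X, x ∈ P) → (∀ y ∈ Y, y ∈ Q) → K X Y

/-- Two consecutive classes of a division into the classes `0, ..., k - 1`; the last class and the
first one are consecutive. -/
def cyclePart {V : Type} (k : ℕ) (c : V → ℕ) (i : ℕ) : Set V := {v | c v = i ∨ c v = (i + 1) % k}

/-- Zigzag cycles of length `k` can be completed: let the finite set `V` be divided into `k`
classes, which are numbered cyclically, and let the structure on the union of every two consecutive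
classes embed into `Δ` in such a way that (the image of) the even one of the two classes lies below
the odd one. Then there is a map from `V` to `Δ` that is an embedding on the union of every two
consecutive classes. (The relations of `m` and its `lt` matter only inside of these unions.) -/
def ZigzagCompletion (Δ : Str ι ar D) (K : Finset D → Finset D → Prop) (k : ℕ) : Prop :=
  ∀ (V : Type) (_ : Finite V) (m : Str ι ar V) (c : V → ℕ), (∀ v, c v < k) →
    (∀ i < k, ∃ f : V → D, IsEmb (m.on (cyclePart k c i)) Δ (fun v => f v) ∧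
      ∀ X Y : Finset D, (∀ x ∈ X, ∃ v ∈ cyclePart k c i, Even (c v) ∧ f v = x) →
        (∀ y ∈ Y, ∃ v ∈ cyclePart k c i, ¬ Even (c v) ∧ f v = y) → K X Y) →
    ∃ f : V → D, ∀ i < k, IsEmb (m.on (cyclePart k c i)) Δ (fun v => f v)

end Pool.Agent.MP_f99268_lc
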