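import Pool.Agent.Lib.MP_f99268_lc.Final
import Pool.Agent.Lib.MP_f99268_lc_V.Defs

/-!
# Chains of finite sets and their fillings
-/

namespace Pool.Agent.MP_f99268_lc

open Equiv Classical

variable {ι : Type} {ar : ι → ℕ} {D : Type}

/-- One of the two directions of the relation `K`. -/
def dr (K : Finset D → Finset D → Prop) (b : Bool) (X Y : Finset D) : Prop :=
  if b = true then K X Y else K Y X

theorem dr_not {K : Finset D → Finset D → Prop} (b : Bool) (X Y : Finset D) :
    dr K (!b) X Y ↔ dr K b Y X := by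
  cases b <;> simp [dr]

section Sep

variable {Δ : Str ι ar D} {K : Finset D → Finset D → Prop}

theorem Separation.dr_image (hK : Separation Δ K) {g : Perm D} (hg : g ∈ autG Δ) (b : Bool)
    {X Y : Finset D} (h : dr K b X Y) : dr K b (X.image g) (Y.image g) := by
  cases b
  · exact hK.inv g hg _ _ h
  · exact hK.inv g hg _ _ h

theorem Separation.dr_mono (hK : Separation Δ K) (b : Bool) {X X' Y Y' : Finset D}
    (hX : X ⊆ X') (hY : Y ⊆ Y') (h : dr K b X' Y') : dr K b X Y := by
  cases b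
  · exact hK.mono _ _ _ _ hY hX h
  · exact hK.mono _ _ _ _ hX hY h

theorem Separation.dr_empty (hK : Separation Δ K) (b : Bool) (X : Finset D) :
    dr K b ∅ X ∧ dr K b X ∅ := by
  cases b
  · exact ⟨(hK.empty X).2, (hK.empty X).1⟩
  · exact hK.empty X

theorem Separation.ext_side (hK : Separation Δ K) (b : Bool) (S X Y : Finset D)
    (hX : dr K b X Y) :
    ∃ g ∈ autG Δ, (∀ x ∈ X, g x = x) ∧ dr K b S (Y.image g) := by
  cases b
  · obtain ⟨g, hg, h1, h2⟩ := hK.below (S ∪ X) X Y Finset.subset_union_right hX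
    exact ⟨g, hg, h1, hK.dr_mono false Finset.subset_union_left subset_rfl h2⟩
  · obtain ⟨g, hg, h1, h2⟩ := hK.above (S ∪ X) X Y Finset.subset_union_right hX
    exact ⟨g, hg, h1, hK.dr_mono true Finset.subset_union_left subset_rfl h2⟩

theorem Separation.join (hK : Separation Δ K) (b : Bool) (S Y Y' : Finset D)
    (h : dr K b S Y) (h' : dr K b S Y') :
    ∃ g ∈ autG Δ, (∀ s ∈ S, g s = s) ∧ dr K b S (Y ∪ Y'.image g) := by
  cases b
  · exact hK.join_below S Y Y' h h'
  · exact hK.join_above S Y Y' h h'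

/-- Finitely many sets can be put on one side of `S`. -/
theorem Separation.family (hK : Separation Δ K) (b : Bool) (S : Finset D) {I : Type}
    (X Y : I → Finset D) (u : I → Perm D) (hu : ∀ i, u i ∈ autG Δ)
    (hS : ∀ i, ∀ x ∈ X i, u i x ∈ S) (hXY : ∀ i, dr K b (X i) (Y i)) (J : Finset I) :
    ∃ v : I → Perm D, (∀ i, v i ∈ autG Δ) ∧ (∀ i, ∀ x ∈ X i, v i x = u i x) ∧
      dr K b S (J.biUnion fun i => (Y i).image (v i)) := by
  induction J using Finset.induction_on with
  | empty => exact ⟨u, hu, fun i x _ => rfl, (hK.dr_empty b S).2⟩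
  | insert i J hi ih =>
    obtain ⟨v, hv, hv1, hv2⟩ := ih
    obtain ⟨w, hw, hw1, hw2⟩ := hK.ext_side b S ((X i).image (u i)) ((Y i).image (u i))
      (hK.dr_image (hu i) b (hXY i))
    obtain ⟨g, hg, hg1, hg2⟩ := hK.join b S _ _ hv2 hw2
    have e1 : Function.update v i (g * w * u i) i = g * w * u i := Function.update_self _ _ _
    have e2 : ∀ j, j ≠ i → Function.update v i (g * w * u i) j = v j := fun j hj =>
      Function.update_of_ne hj _ _
    refine ⟨Function.update v i (g * w * u i), ?_, ?_, ?_⟩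
    · intro j
      by_cases h : j = i
      · rw [h, e1]
        exact (autG Δ).mul_mem ((autG Δ).mul_mem hg hw) (hu i)
      · rw [e2 j h]
        exact hv j
    · intro j x hx
      by_cases h : j = i
      · subst h
        rw [e1, Perm.mul_apply, Perm.mul_apply, hw1 _ (Finset.mem_image_of_mem _ hx)]
        exact hg1 _ (hS j x hx)
      · rw [e2 j h]
        exact hv1 j x hx
    · refine hK.dr_mono b subset_rfl ?_ hg2
      intro y hy
      obtain ⟨j, hj, hy'⟩ := Finset.mem_biUnion.1 hy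
      obtain ⟨z, hz, hy''⟩ := Finset.mem_image.1 hy'
      rw [Finset.mem_union]
      by_cases h : j = i
      · subst h
        right
        rw [e1] at hy''
        rw [← hy'', Perm.mul_apply, Perm.mul_apply]
        exact Finset.mem_image_of_mem _ (Finset.mem_image_of_mem _
          (Finset.mem_image_of_mem _ hz))
      · left
        rw [e2 j h] at hy''
        rw [← hy'']
        exact Finset.mem_biUnion.2 ⟨j, (Finset.mem_insert.1 hj).resolve_left h,
          Finset.mem_image_of_mem _ hz⟩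

end Sep

/-- The chain of finite sets `X, L` can be filled, starting with the map `u` on `X`, such that the
last set is in the position `t` over `B`. -/
def Fl (G : Subgroup (Perm D)) (t : D → D) (B : Finset D) :
    List (Finset D) → Finset D → Perm D → Prop
  | [], X, u => ∃ h ∈ st G B, ∀ x ∈ X, u x = h (t x)
  | X' :: L, X, u => ∃ g ∈ G, (∀ x ∈ X, g x = u x) ∧ Fl G t B L X' g

/-- Consecutive sets of the chain `X, L` are on alternating sides of each other. -/
def Ok (K : Finset D → Finset D → Prop) : List (Finset D) → Bool → Finset D → Prop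
  | [], _, _ => True
  | X' :: L, b, X => dr K b X X' ∧ Ok K L (!b) X'

theorem Fl.congr {G : Subgroup (Perm D)} {t : D → D} {B : Finset D} :
    ∀ {L : List (Finset D)} {X : Finset D} {u u' : Perm D}, Fl G t B L X u →
      (∀ x ∈ X, u' x = u x) → Fl G t B L X u' := by
  intro L X u u' h hu
  cases L with
  | nil =>
    obtain ⟨h, hh, h1⟩ := h
    exact ⟨h, hh, fun x hx => (hu x hx).trans (h1 x hx)⟩
  | cons X' L =>
    obtain ⟨g, hg, h1, h2⟩ := h
    exact ⟨g, hg, fun x hx => (h1 x hx).trans (hu x hx).symm, h2⟩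

theorem Fl.mul {G : Subgroup (Perm D)} {t : D → D} {B : Finset D} {k : Perm D}
    (hk : k ∈ st G B) : ∀ {L : List (Finset D)} {X : Finset D} {u : Perm D}, Fl G t B L X u →
      Fl G t B L X (k * u) := by
  intro L
  induction L with
  | nil =>
    rintro X u ⟨h, hh, h1⟩
    exact ⟨k * h, (st G B).mul_mem hk hh, fun x hx => congrArg k (h1 x hx)⟩
  | cons X' L ih =>
    rintro X u ⟨g, hg, h1, h2⟩
    exact ⟨k * g, G.mul_mem (st_le hk) hg, fun x hx => congrArg k (h1 x hx), ih h2⟩

/-- Finitely many chains can be merged. -/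
theorem merge {Δ : Str ι ar D} {K : Finset D → Finset D → Prop} (hK : Separation Δ K)
    {t : D → D} {B : Finset D} (ht : CanU (autG Δ) ∅ B t) (I : Type) [Fintype I] :
    ∀ (n : ℕ) (b : Bool) (S : Finset D) (X : I → Finset D) (u : I → Perm D)
      (L : I → List (Finset D)), (∀ i, (L i).length = n) → (∀ i, u i ∈ autG Δ) →
      (∀ i, ∀ x ∈ X i, u i x ∈ S) → (∀ i, Ok K (L i) b (X i)) →
      ∃ M : List (Finset D), M.length = n ∧ Ok K M b S ∧
        ∀ g ∈ autG Δ, Fl (autG Δ) t B M S g → ∀ i, Fl (autG Δ) t B (L i) (X i) (g * u i) := by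
  intro n
  induction n with
  | zero =>
    intro b S X u L hL hu hS hok
    refine ⟨[], rfl, trivial, ?_⟩
    rintro g hg ⟨h, hh, h1⟩ i
    rw [List.eq_nil_of_length_eq_zero (hL i)]
    obtain ⟨h', hh', h2⟩ := ht.fin (fun x : {x // x ∈ X i} => x.1)
      (fun x : {x // x ∈ X i} => u i x.1) (Orb.of_mem (by rw [st_empty]; exact hu i) _)
    refine ⟨h * h', (st _ B).mul_mem hh hh', fun x hx => ?_⟩
    rw [Perm.mul_apply, Perm.mul_apply, h1 _ (hS i x hx)]
    exact congrArg h (h2 ⟨x, hx⟩).symm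
  | succ n ih =>
    intro b S X u L hL hu hS hok
    have hL' : ∀ i, ∃ (X' : Finset D) (L' : List (Finset D)), L i = X' :: L' ∧ L'.length = n := by
      intro i
      match h : L i with
      | [] =>
        have := hL i
        rw [h] at this
        simp at this
      | X' :: L' =>
        refine ⟨X', L', rfl, ?_⟩
        have := hL i
        rw [h] at this
        simpa using this
    choose X' L' e hL'n using hL'
    have hok' : ∀ i, dr K b (X i) (X' i) ∧ Ok K (L' i) (!b) (X' i) := by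
      intro i
      have := hok i
      rw [e i] at this
      exact this
    obtain ⟨v, hv, hv1, hv2⟩ := hK.family b S X X' u hu hS (fun i => (hok' i).1) Finset.univ
    let S' : Finset D := Finset.univ.biUnion fun i => (X' i).image (v i)
    have hS' : ∀ i, ∀ x ∈ X' i, v i x ∈ S' := fun i x hx =>
      Finset.mem_biUnion.2 ⟨i, Finset.mem_univ _, Finset.mem_image_of_mem _ hx⟩
    obtain ⟨M, hM, hMok, hM2⟩ := ih (!b) S' X' v L' hL'n hv hS' (fun i => (hok' i).2)
    refine ⟨S' :: M, by simp [hM], ⟨hv2, hMok⟩, ?_⟩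
    · rintro g hg ⟨g', hg', h1, h2⟩ i
      rw [e i]
      refine ⟨g' * v i, (autG Δ).mul_mem hg' (hv i), fun x hx => ?_, hM2 g' hg' h2 i⟩
      rw [Perm.mul_apply, Perm.mul_apply, hv1 i x hx]
      exact h1 _ (hS i x hx)

/-- The glueing step for the zones given by chains. -/
theorem chain_step [Finite ι] {Δ : Str ι ar D} (hlin : IsStrictTotalOrder D Δ.lt)
    (hΔ : Homogeneous Δ) {K : Finset D → Finset D → Prop} (hK : Separation Δ K)
    {t : D → D} {B : Finset D} (ht : CanU (autG Δ) ∅ B t) (n : ℕ) (b : Bool)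
    (AP AQ : Finset D) (hPQ : dr K b AP AQ) (τ : Perm D) (hτ : τ ∈ autG Δ)
    (h : ∀ L : List (Finset D), L.length = n + 1 → Ok K L b (AP.image τ) →
      Fl (autG Δ) t B L (AP.image τ) 1) :
    ∃ σ ∈ autG Δ, (∀ a ∈ AP, σ a = τ a) ∧ ∀ L : List (Finset D), L.length = n →
      Ok K L (!b) (AQ.image σ) → Fl (autG Δ) t B L (AQ.image σ) 1 := by
  by_contra hcon
  push Not at hcon
  -- finitely many representatives
  obtain ⟨T, hT, hT2⟩ := (olig_autG hlin hΔ).finite (B ∪ AP.image τ) {a // a ∈ AQ}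
  let I₀ : Set ({a // a ∈ AQ} → D) := {x | x ∈ T ∧ ∃ ρ ∈ autG Δ, (∀ a ∈ AP, ρ a = τ a) ∧
    ∀ a : {a // a ∈ AQ}, ρ a = x a}
  have hI₀ : I₀.Finite := hT.subset (fun x hx => hx.1)
  let I : Type := {x // x ∈ I₀}
  have : Finite I := hI₀.to_subtype
  have : Fintype I := Fintype.ofFinite I
  choose ρ hρ hρP hρQ using fun i : I => i.2.2
  choose L hLn hLok hLbad using fun i : I => hcon (ρ i) (hρ i) (hρP i)
  have hinv : ∀ (g : Perm D) (x : D), g⁻¹ (g x) = x := fun g x => g.symm_apply_apply x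
  obtain ⟨M, hM, hMok, hM2⟩ := merge hK ht I n (!b) (AQ.image τ)
    (fun i => AQ.image (ρ i)) (fun i => τ * (ρ i)⁻¹) L hLn
    (fun i => (autG Δ).mul_mem hτ ((autG Δ).inv_mem (hρ i))) (by
      intro i x hx
      obtain ⟨a, ha, rfl⟩ := Finset.mem_image.1 hx
      rw [Perm.mul_apply, hinv]
      exact Finset.mem_image_of_mem _ ha) hLok
  obtain ⟨g, hg, h1, h2⟩ := h (AQ.image τ :: M) (by simp [hM]) ⟨hK.dr_image hτ b hPQ, hMok⟩
  have hσ : g * τ ∈ autG Δ := (autG Δ).mul_mem hg hτ
  have hσP : ∀ a ∈ AP, (g * τ) a = τ a := fun a ha => h1 _ (Finset.mem_image_of_mem _ ha)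
  obtain ⟨l, hl, hlT⟩ := hT2 (fun a : {a // a ∈ AQ} => (g * τ) a)
  have hl1 := mem_st.1 hl
  have hi : (fun a : {a // a ∈ AQ} => l ((g * τ) a)) ∈ I₀ := by
    refine ⟨hlT, l * (g * τ), (autG Δ).mul_mem hl1.1 hσ, fun a ha => ?_, fun a => rfl⟩
    rw [Perm.mul_apply, hσP a ha]
    exact hl1.2 _ (Finset.mem_union_right _ (Finset.mem_image_of_mem _ ha))
  have hlB : l ∈ st (autG Δ) B := st_mono Finset.subset_union_left hl
  apply hLbad ⟨_, hi⟩
  refine (Fl.mul hlB (hM2 g hg h2 ⟨_, hi⟩)).congr ?_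
  intro x hx
  obtain ⟨a, ha, rfl⟩ := Finset.mem_image.1 hx
  have e := hρQ ⟨_, hi⟩ ⟨a, ha⟩
  rw [Perm.mul_apply, Perm.mul_apply, Perm.mul_apply, hinv, Perm.one_apply]
  exact e

end Pool.Agent.MP_f99268_lc
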