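import Pool.Agent.Lib.MP_f99268_lc_V.Zero

/-!
# The glueing chain and the theorem
-/

namespace Pool.Agent.MP_f99268_lc

open Equiv Classical

variable {ι : Type} {ar : ι → ℕ} {D : Type}

/-- A canonical copy all of whose finite parts have an invariant and hereditary property. -/
theorem exists_can_copy [Countable D] {G : Subgroup (Perm D)} (hR : FR G Bool) (hO : Olig G)
    (B : Finset D) (p : Finset D → Prop) (hmono : ∀ Y Y', Y' ⊆ Y → p Y → p Y')
    (hinv : ∀ g ∈ st G B, ∀ Y, p Y → p (Y.image g))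
    (hsat : ∀ A : Finset D, ∃ g ∈ G, p (A.image g)) :
    ∃ t : D → D, Emb G t ∧ CanU G ∅ B t ∧ ∀ A : Finset D, p (A.image t) := by
  obtain ⟨e, he1, he2⟩ := exists_pos hO B (fun Y => ∀ Z : Finset D, (Z : Set D) ⊆ Y → p Z)
    (fun Y Y' hY h Z hZ => h Z (hZ.trans hY)) (by
      intro g hg Y h Z hZ
      have h1 : p (Z.image (g⁻¹ : Perm D)) := by
        apply h
        intro x hx
        obtain ⟨z, hz, rfl⟩ := Finset.mem_image.1 (Finset.mem_coe.1 hx)
        obtain ⟨y, hy, hyz⟩ := hZ hz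
        rw [← hyz, show g⁻¹ (g y) = y from g.symm_apply_apply y]
        exact hy
      have h2 := hinv g hg _ h1
      rw [Finset.image_image] at h2
      have h3 : Z.image (g ∘ (g⁻¹ : Perm D)) = Z := by
        have h4 : (g : D → D) ∘ ((g⁻¹ : Perm D) : D → D) = id := by
          funext x
          exact g.apply_symm_apply x
        rw [h4, Finset.image_id]
      rwa [h3] at h2) (by
      intro A
      obtain ⟨g, hg, h⟩ := hsat A
      refine ⟨g, hg, fun Z hZ => hmono _ _ ?_ h⟩
      intro z hz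
      obtain ⟨a, ha, rfl⟩ := hZ hz
      exact Finset.mem_image_of_mem _ ha)
  obtain ⟨k, h1, h2⟩ := canonise_one hR hO ∅ B (fun x : Fin 1 → D => e (x 0))
  refine ⟨fun a => k (fun _ => a), ?_, ?_, ?_⟩
  · intro A
    obtain ⟨β, hβ, η, hη, h⟩ := h1 A
    obtain ⟨g, hg, h3⟩ := he1 (A.image (β 0))
    refine ⟨η * g * β 0, ?_, fun a ha => ?_⟩
    · exact Subgroup.mul_mem _ (Subgroup.mul_mem _ (st_le hη) hg) (st_le (hβ 0))
    · refine (h (fun _ => a) (fun _ => ha)).trans ?_
      show η (e (β 0 a)) = η (g (β 0 a))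
      rw [h3 _ (Finset.mem_image_of_mem _ ha)]
  · intro m x y hxy
    exact h2 m (fun _ => x) (fun _ => y) (fun _ => hxy)
  · intro A
    obtain ⟨β, hβ, η, hη, h⟩ := h1 A
    have h5 : p (((A.image (β 0)).image e)) := by
      refine he2 (A.image (β 0)) _ ?_
      intro x hx
      obtain ⟨y, hy, rfl⟩ := Finset.mem_image.1 (Finset.mem_coe.1 hx)
      exact ⟨y, hy, rfl⟩
    refine hmono _ _ ?_ (hinv η hη _ h5)
    intro x hx
    obtain ⟨a, ha, rfl⟩ := Finset.mem_image.1 hx
    rw [h (fun _ => a) (fun _ => ha)]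
    exact Finset.mem_image_of_mem _ (Finset.mem_image_of_mem _ (Finset.mem_image_of_mem _ ha))

/-- The glueing chain. -/
theorem exists_glue_zigzag [Countable D] [Finite ι] {Δ : Str ι ar D}
    (hlin : IsStrictTotalOrder D Δ.lt) (hΔ : Homogeneous Δ) (hR : RamseyProperty Δ)
    {K : Finset D → Finset D → Prop} (hK : Separation Δ K) {k : ℕ} (hk : 4 ≤ k) (hke : Even k)
    (hC : ZigzagCompletion Δ K k) : Nonempty (Glue (autG Δ)) := by
  obtain ⟨N, rfl⟩ : ∃ N, k = N + 1 := ⟨k - 1, by omega⟩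
  have hN : 3 ≤ N := by omega
  have hNo : ¬ Even N := Nat.even_add_one.1 hke
  have hO := olig_autG hlin hΔ
  have hF := fr_autG hlin hΔ hR
  have hfarB : ∀ B : Finset D, ∃ t : D → D, Emb (autG Δ) t ∧ CanU (autG Δ) ∅ B t ∧
      ∀ A : Finset D, K B (A.image t) := by
    intro B
    apply exists_can_copy hF hO B (fun Y => K B Y)
    · exact fun Y Y' hY h => hK.mono _ _ _ _ subset_rfl hY h
    · intro g hg Y h
      have h1 := mem_st.1 hg
      have h2 := hK.inv g h1.1 _ _ h
      have h3 : B.image g = B := by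
        ext x
        rw [Finset.mem_image]
        constructor
        · rintro ⟨b, hb, rfl⟩
          rwa [h1.2 b hb]
        · exact fun hx => ⟨x, hx, h1.2 x hx⟩
      rwa [h3] at h2
    · intro A
      obtain ⟨g, hg, -, h1⟩ := hK.ext_side true B ∅ A (hK.dr_empty true A).1
      exact ⟨g, hg, h1⟩
  choose t ht1 ht2 ht3 using hfarB
  obtain ⟨c, P, Q, hinv, hP, hQ, hPQ⟩ := hK.regions
  have hreg : ∀ R : Set D, (∀ g ∈ st (autG Δ) c, ∀ x ∈ R, g x ∈ R) →
      (∀ A : Finset D, ∃ g : Perm D, IsAut Δ g ∧ ∀ a ∈ A, g a ∈ R) →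
      ∃ u : D → D, Emb (autG Δ) u ∧ CanU (autG Δ) ∅ c u ∧ ∀ x, u x ∈ R := by
    intro R h1 h2
    obtain ⟨u, hu1, hu2, hu3⟩ := exists_can_copy hF hO c (fun Y => ∀ y ∈ Y, y ∈ R)
      (fun Y Y' hY h y hy => h y (hY hy)) (by
        intro g hg Y h y hy
        obtain ⟨z, hz, rfl⟩ := Finset.mem_image.1 hy
        exact h1 g hg z (h z hz)) (by
        intro A
        obtain ⟨g, hg, h⟩ := h2 A
        refine ⟨g, hg, fun y hy => ?_⟩
        obtain ⟨z, hz, rfl⟩ := Finset.mem_image.1 hy
        exact h z hz)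
    exact ⟨u, hu1, hu2, fun x => hu3 {x} _ (by simp)⟩
  have hinvP : ∀ g ∈ st (autG Δ) c, ∀ x ∈ P, g x ∈ P := fun g hg =>
    (hinv g (mem_st.1 hg).1 (mem_st.1 hg).2).1
  have hinvQ : ∀ g ∈ st (autG Δ) c, ∀ x ∈ Q, g x ∈ Q := fun g hg =>
    (hinv g (mem_st.1 hg).1 (mem_st.1 hg).2).2
  obtain ⟨uP, uP1, uP2, uP3⟩ := hreg P hinvP hP
  obtain ⟨uQ, uQ1, uQ2, uQ3⟩ := hreg Q hinvQ hQ
  let par : ℕ → Bool := fun j => decide (Even j)
  have hpar : ∀ j, par (j + 1) = !par j := by
    intro j
    by_cases h : Even j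
    · have h' : ¬ Even (j + 1) := by
        rw [Nat.even_add_one]
        exact not_not.2 h
      simp only [par, decide_eq_true h, decide_eq_false h', Bool.not_true]
    · have h' : Even (j + 1) := Nat.even_add_one.2 h
      simp only [par, decide_eq_false h, decide_eq_true h', Bool.not_false]
  let Pj : ℕ → Set D := fun j => if par j = true then P else Q
  let Qj : ℕ → Set D := fun j => if par j = true then Q else P
  refine ⟨{
    N := N
    c := fun _ => c
    P := Pj
    Q := Qj
    hP := ?_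
    hQ := ?_
    uP := fun j => if par j = true then uP else uQ
    uP_emb := ?_
    uP_can := ?_
    uP_mem := ?_
    uQ := fun j => if par j = true then uQ else uP
    uQ_emb := ?_
    uQ_can := ?_
    uQ_mem := ?_
    Z := fun j B Y => ∀ L : List (Finset D), L.length = N - j → Ok K L (par j) Y →
      Fl (autG Δ) (t B) B L Y 1
    Z_anti := ?_
    Z_zero := ?_
    step := ?_
    t := t
    t_emb := ht1
    t_can := ht2
    final := ?_ }⟩
  · intro j g hg x hx
    simp only [Pj] at hx ⊢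
    split_ifs at hx ⊢
    · exact hinvP g hg x hx
    · exact hinvQ g hg x hx
  · intro j g hg x hx
    simp only [Qj] at hx ⊢
    split_ifs at hx ⊢
    · exact hinvQ g hg x hx
    · exact hinvP g hg x hx
  · intro j
    split_ifs
    · exact uP1
    · exact uQ1
  · intro j
    split_ifs
    · exact uP2
    · exact uQ2
  · intro j x
    simp only [Pj]
    split_ifs
    · exact uP3 x
    · exact uQ3 x
  · intro j
    split_ifs
    · exact uQ1
    · exact uP1
  · intro j
    split_ifs
    · exact uQ2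
    · exact uP2
  · intro j x
    simp only [Qj]
    split_ifs
    · exact uQ3 x
    · exact uP3 x
  · intro j B Y Y' hY h L hL hok
    obtain ⟨M, hM, hMok, hM2⟩ := merge hK (ht2 B) Unit (N - j) (par j) Y
      (fun _ => Y') (fun _ => 1) (fun _ => L) (fun _ => hL) (fun _ => (autG Δ).one_mem)
      (fun _ x hx => hY hx) (fun _ => hok)
    have h1 := hM2 1 (autG Δ).one_mem (h M hM hMok) ()
    rwa [one_mul] at h1
  · intro B Y hY L hL hok
    exact fill_zero hΔ hK hN hNo hC (ht1 B) (ht3 B) Y hY L (by omega) hok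
  · intro j hj A B τ hτ hZ
    obtain ⟨n, hn⟩ : ∃ n, N - j = n + 1 := ⟨N - j - 1, by omega⟩
    have hn' : N - (j + 1) = n := by omega
    obtain ⟨σ, hσ, h1, h2⟩ := chain_step hlin hΔ hK (ht2 B) n (par j)
      (A.filter (· ∈ Pj j)) (A.filter (· ∈ Qj j)) (by
        by_cases hp : par j = true
        · have e1 : Pj j = P := if_pos hp
          have e2 : Qj j = Q := if_pos hp
          rw [hp, e1, e2]
          exact hPQ _ _ (fun x hx => (Finset.mem_filter.1 hx).2)
            (fun x hx => (Finset.mem_filter.1 hx).2)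
        · have e1 : Pj j = Q := if_neg hp
          have e2 : Qj j = P := if_neg hp
          rw [Bool.not_eq_true] at hp
          rw [hp, e1, e2]
          exact hPQ _ _ (fun x hx => (Finset.mem_filter.1 hx).2)
            (fun x hx => (Finset.mem_filter.1 hx).2)) τ hτ (by
        intro L hL hok
        exact hZ L (hL.trans hn.symm) hok)
    refine ⟨σ, hσ, fun a ha haP => h1 a (Finset.mem_filter.2 ⟨ha, haP⟩), ?_⟩
    intro L hL hok
    rw [hpar] at hok
    exact h2 L (hL.trans hn') hok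
  · intro B m x σ hσ hZ
    obtain ⟨h, hh, h1⟩ := hZ [] (by simp) trivial
    have h2 : Orb (autG Δ) B (fun i => t B (x i)) (fun i => t B (σ (x i))) :=
      ht2 B m x (fun i => σ (x i)) (Orb.of_mem (by rwa [st_empty]) x)
    refine h2.trans ⟨h, hh, fun i => ?_⟩
    exact (h1 (σ (x i)) (Finset.mem_image_of_mem _ (Finset.mem_univ i))).symm

/-- The theorem for structures with a separation and completions of zigzag cycles. -/
theorem zigzag_main [Countable D] [Finite ι] {Δ : Str ι ar D}
    (hlin : IsStrictTotalOrder D Δ.lt) (hΔ : Homogeneous Δ) (hR : RamseyProperty Δ)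
    {K : Finset D → Finset D → Prop} (hK : Separation Δ K) {k : ℕ} (hk : 4 ≤ k) (hke : Even k)
    (hC : ZigzagCompletion Δ K k) {Γ : (n : ℕ) → Set (Set (Fin n → D))}
    (hΓ : IsReduct Δ Γ) (hno : ¬ HasHomToProjections (Pol Γ)) :
    ∃ (n : ℕ) (c : Fin n → D), ∀ m, ¬ HasHomToProjections (TypeClone Δ c (Pol Γ) m) := by
  obtain ⟨gl⟩ := exists_glue_zigzag hlin hΔ hR hK hk hke hC
  exact of_glue hlin hΔ hR gl hΓ hno

end Pool.Agent.MP_f99268_lc
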