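import Pool.Agent.Lib.MP_f99268_lc.Free
import Pool.Agent.Lib.MP_f99268_lc_V.Defs

/-!
# The order as a separation

If every cycle of ordered structures of some even length, with an arbitrary linear order on the
union, can be completed (this holds for free amalgamation classes), then the order is a separation
and zigzag cycles can be completed.
-/

namespace Pool.Agent.MP_f99268_lc

open Equiv Classical

variable {ι : Type} {ar : ι → ℕ} {D : Type}

/-- Cycles with an arbitrary linear order can be completed. -/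
def OrderedCycles (Δ : Str ι ar D) (k : ℕ) : Prop :=
  ∀ (V : Type) (_ : Finite V) (m : Str ι ar V) (c : V → ℕ), IsStrictTotalOrder V m.lt →
    (∀ v, c v < k) →
    (∀ i < k, ∃ f : V → D, IsEmb (m.on (cyclePart k c i)) Δ (fun v => f v)) →
    ∃ f : V → D, (∀ v w, Δ.lt (f v) (f w) ↔ m.lt v w) ∧
      ∀ i < k, IsEmb (m.on (cyclePart k c i)) Δ (fun v => f v)

/-- A linear order from a rank function and linear orders on its classes. -/
theorem rank_order {V : Type} {lt : V → V → Prop} (r : V → ℕ)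
    (htri : ∀ v w, r v = r w → ¬ lt v w → ¬ lt w v → v = w) (hirr : ∀ v, ¬ lt v v)
    (htr : ∀ u v w, r u = r v → r v = r w → lt u v → lt v w → lt u w) :
    IsStrictTotalOrder V (fun v w => r v < r w ∨ (r v = r w ∧ lt v w)) where
  trichotomous := by
    intro v w h1 h2
    push Not at h1 h2
    have e : r v = r w := le_antisymm h2.1 h1.1
    exact htri v w e (h1.2 e) (h2.2 e.symm)
  irrefl := by
    rintro v (h | ⟨-, h⟩)
    · exact lt_irrefl _ h
    · exact hirr _ h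
  trans := by
    rintro u v w (h | ⟨h, h'⟩) (k | ⟨k, k'⟩)
    · exact Or.inl (h.trans k)
    · exact Or.inl (k ▸ h)
    · exact Or.inl (h ▸ k)
    · exact Or.inr ⟨h.trans k, htr _ _ _ h k h' k'⟩

theorem cyclePart_parity {V : Type} {k : ℕ} (hke : Even k) {c : V → ℕ} {i : ℕ} (hi : i < k)
    {v w : V} (hv : v ∈ cyclePart k c i) (hw : w ∈ cyclePart k c i) (h : c v ≠ c w) :
    Even (c v) ↔ ¬ Even (c w) := by
  have key : Even i ↔ ¬ Even ((i + 1) % k) := by
    rcases Nat.lt_or_ge (i + 1) k with h | h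
    · rw [Nat.mod_eq_of_lt h, Nat.even_add_one, not_not]
    · have e : i + 1 = k := by omega
      rw [e, Nat.mod_self]
      have h1 : ¬ Even i := by
        rw [← e] at hke
        exact Nat.even_add_one.1 hke
      exact iff_of_false h1 (not_not.2 Even.zero)
  have hv' : c v = i ∨ c v = (i + 1) % k := hv
  have hw' : c w = i ∨ c w = (i + 1) % k := hw
  rcases hv' with h1 | h1 <;> rcases hw' with h2 | h2
  · omega
  · rw [h1, h2]
    exact key
  · rw [h1, h2]
    constructor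
    · exact fun h3 h4 => key.1 h4 h3
    · intro h3
      by_contra h4
      exact h3 (key.2 h4)
  · omega

/-- All elements of `X` are smaller than all elements of `Y`. -/
def OrderBelow (Δ : Str ι ar D) (X Y : Finset D) : Prop := ∀ x ∈ X, ∀ y ∈ Y, Δ.lt x y

/-- Zigzag cycles are a special case. -/
theorem OrderedCycles.zigzag [Nonempty D] {Δ : Str ι ar D} (hlin : IsStrictTotalOrder D Δ.lt)
    {k : ℕ} (hke : Even k) (h : OrderedCycles Δ k) : ZigzagCompletion Δ (OrderBelow Δ) k := by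
  intro V _ m c hc hp
  choose! f hf hfK' using hp
  have hfK : ∀ i < k, ∀ v ∈ cyclePart k c i, ∀ w ∈ cyclePart k c i, Even (c v) → ¬ Even (c w) →
      Δ.lt (f i v) (f i w) := by
    intro i hi v hv w hw hev how
    refine hfK' i hi {f i v} {f i w} ?_ ?_ (f i v) (Finset.mem_singleton_self _) (f i w)
      (Finset.mem_singleton_self _)
    · intro x hx
      exact ⟨v, hv, hev, (Finset.mem_singleton.1 hx).symm⟩
    · intro y hy
      exact ⟨w, hw, how, (Finset.mem_singleton.1 hy).symm⟩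
  have hmem : ∀ v, v ∈ cyclePart k c (c v) := fun v => Or.inl rfl
  have hmem' : ∀ v w, c v = c w → w ∈ cyclePart k c (c v) := fun v w h => Or.inl h.symm
  let r : V → ℕ := fun v => if Even (c v) then c v else k + c v
  have hr : ∀ v w, r v = r w → c v = c w := by
    intro v w h
    have h1 := hc v
    have h2 := hc w
    simp only [r] at h
    split_ifs at h <;> omega
  have hr' : ∀ v w, c v = c w → r v = r w := by
    intro v w h
    simp only [r, h]
  let m' : Str ι ar V :=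
    { lt := fun v w => r v < r w ∨ (r v = r w ∧ m.lt v w)
      rel := m.rel }
  have hord : ∀ v w, c v = c w → (Δ.lt (f (c v) v) (f (c v) w) ↔ m.lt v w) := fun v w h =>
    (hf (c v) (hc v)).2.1 ⟨v, hmem v⟩ ⟨w, hmem' v w h⟩
  have hm : IsStrictTotalOrder V m'.lt := by
    apply rank_order r
    · intro v w h1 h2 h3
      have h4 := hr v w h1
      have h5 : ¬ Δ.lt (f (c v) v) (f (c v) w) := fun h => h2 ((hord v w h4).1 h)
      have h6 : ¬ Δ.lt (f (c v) w) (f (c v) v) := fun h => h3 (by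
        have := (hord w v h4.symm).1
        rw [← h4] at this
        exact this h)
      have h7 := hlin.trichotomous _ _ h5 h6
      have h8 := (hf (c v) (hc v)).1 (a₁ := ⟨v, hmem v⟩) (a₂ := ⟨w, hmem' v w h4⟩) h7
      exact congrArg Subtype.val h8
    · intro v h1
      exact hlin.irrefl _ ((hord v v rfl).2 h1)
    · intro u v w h1 h2 h3 h4
      have h5 := hr u v h1
      have h6 := hr v w h2
      have h7 := (hord u v h5).2 h3
      have h8 := (hord v w h6).2 h4
      rw [← h5] at h8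
      exact (hord u w (h5.trans h6)).1 (hlin.trans _ _ _ h7 h8)
  have hiff : ∀ i < k, ∀ v ∈ cyclePart k c i, ∀ w ∈ cyclePart k c i, (m.lt v w ↔ m'.lt v w) := by
    intro i hi v hv w hw
    show _ ↔ r v < r w ∨ (r v = r w ∧ m.lt v w)
    by_cases hvw : c v = c w
    · rw [hr' v w hvw]
      simp
    · have hpar := cyclePart_parity hke hi hv hw hvw
      have hrne : r v ≠ r w := fun h => hvw (hr v w h)
      have h1 := (hf i hi).2.1 ⟨v, hv⟩ ⟨w, hw⟩
      have h1' : Δ.lt (f i v) (f i w) ↔ m.lt v w := h1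
      have hcv := hc v
      have hcw := hc w
      by_cases hev : Even (c v)
      · have hew := hpar.1 hev
        have h2 : r v < r w := by
          simp only [r, if_pos hev, if_neg hew]
          omega
        exact iff_of_true (h1'.1 (hfK i hi v hv w hw hev hew)) (Or.inl h2)
      · have hew : Even (c w) := by
          by_contra h3
          exact hev (hpar.2 h3)
        have h2 : r w < r v := by
          simp only [r, if_neg hev, if_pos hew]
          omega
        have h3 := hfK i hi w hw v hv hew hev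
        refine iff_of_false (fun h4 => ?_) ?_
        · exact hlin.irrefl _ (hlin.trans _ _ _ h3 (h1'.2 h4))
        · rintro (h4 | ⟨h4, -⟩) <;> omega
  obtain ⟨g, -, hg⟩ := h V inferInstance m' c hm hc (fun i hi => ⟨f i, (hf i hi).1, fun v w =>
    ((hf i hi).2.1 v w).trans (hiff i hi v v.2 w w.2), (hf i hi).2.2⟩)
  exact ⟨g, fun i hi => ⟨(hg i hi).1, fun v w =>
    ((hg i hi).2.1 v w).trans (hiff i hi v v.2 w w.2).symm, (hg i hi).2.2⟩⟩

/-- The extension property, upwards or downwards. -/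
theorem OrderedCycles.ext {Δ : Str ι ar D} (hlin : IsStrictTotalOrder D Δ.lt)
    (hΔ : Homogeneous Δ) {k : ℕ} (hk : 4 ≤ k) (hC : OrderedCycles Δ k)
    (b : Bool) (S X X' : Finset D)
    (hX : ∀ x ∈ X, ∀ y ∈ X', if b = true then Δ.lt x y else Δ.lt y x) :
    ∃ g ∈ autG Δ, (∀ x ∈ X, g x = x) ∧
      ∀ s ∈ S, ∀ y ∈ X', if b = true then Δ.lt s (g y) else Δ.lt (g y) s := by
  let E : Finset (ℕ × D) := (({0} : Finset ℕ) ×ˢ (S \ X)) ∪ ((({1} : Finset ℕ) ×ˢ X) ∪
    (({2} : Finset ℕ) ×ˢ X'))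
  let V : Type := {p // p ∈ E}
  have hE : ∀ p : ℕ × D, p ∈ E ↔ (p.1 = 0 ∧ p.2 ∈ S ∧ p.2 ∉ X) ∨ (p.1 = 1 ∧ p.2 ∈ X) ∨
      (p.1 = 2 ∧ p.2 ∈ X') := by
    intro p
    simp only [E, Finset.mem_union, Finset.mem_product, Finset.mem_singleton, Finset.mem_sdiff]
  let r : V → ℕ := fun v => if v.1.1 = 2 then (if b = true then 2 else 0) else 1
  let m : Str ι ar V :=
    { lt := fun v w => r v < r w ∨ (r v = r w ∧ Δ.lt v.1.2 w.1.2)
      rel := fun i t => Δ.rel i (fun a => (t a).1.2) }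
  have hr2 : ∀ v : V, v.1.1 = 2 → r v = if b = true then 2 else 0 := fun v h => if_pos h
  have hr1 : ∀ v : V, v.1.1 ≠ 2 → r v = 1 := fun v h => if_neg h
  have hr12 : ∀ v w : V, v.1.1 ≠ 2 → w.1.1 = 2 → r v ≠ r w := by
    intro v w hv hw
    rw [hr1 v hv, hr2 w hw]
    split_ifs <;> omega
  have hinj : ∀ v w : V, r v = r w → v.1.2 = w.1.2 → v = w := by
    intro v w h1 h2
    apply Subtype.ext
    refine Prod.ext ?_ h2
    rcases (hE v.1).1 v.2 with ⟨a1, a2, a3⟩ | ⟨a1, a2⟩ | ⟨a1, a2⟩ <;>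
    rcases (hE w.1).1 w.2 with ⟨b1, b2, b3⟩ | ⟨b1, b2⟩ | ⟨b1, b2⟩
    · omega
    · exact absurd (h2 ▸ b2) a3
    · exact absurd h1 (hr12 v w (by omega) b1)
    · exact absurd (h2 ▸ a2) b3
    · omega
    · exact absurd h1 (hr12 v w (by omega) b1)
    · exact absurd h1.symm (hr12 w v (by omega) a1)
    · exact absurd h1.symm (hr12 w v (by omega) a1)
    · omega
  have hm : IsStrictTotalOrder V m.lt :=
    rank_order (lt := fun v w : V => Δ.lt v.1.2 w.1.2) r
      (fun v w h1 h2 h3 => hinj v w h1 (hlin.trichotomous _ _ h2 h3))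
      (fun v => hlin.irrefl _) (fun u v w _ _ h1 h2 => hlin.trans _ _ _ h1 h2)
  -- the value map is an embedding on every set that does not meet both the colours `0` and `2`
  have hval : ∀ U : Set V, (∀ v ∈ U, ∀ w ∈ U, ¬ (v.1.1 = 0 ∧ w.1.1 = 2)) →
      IsEmb (m.on U) Δ (fun v => v.1.1.2) := by
    intro U hU
    have hlt : ∀ v w : V, v ∈ U → w ∈ U → (Δ.lt v.1.2 w.1.2 ↔ m.lt v w) := by
      intro v w hv hw
      by_cases hv2 : v.1.1 = 2
      · by_cases hw2 : w.1.1 = 2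
        · have e : r v = r w := by rw [hr2 v hv2, hr2 w hw2]
          show _ ↔ r v < r w ∨ (r v = r w ∧ Δ.lt v.1.2 w.1.2)
          rw [e]
          simp
        · have hw1 : w.1.1 = 1 ∧ w.1.2 ∈ X := by
            rcases (hE w.1).1 w.2 with ⟨b1, b2, b3⟩ | ⟨b1, b2⟩ | ⟨b1, b2⟩
            · exact absurd ⟨b1, hv2⟩ (hU w hw v hv)
            · exact ⟨b1, b2⟩
            · exact absurd b1 hw2
          have hv1 : v.1.2 ∈ X' := by
            rcases (hE v.1).1 v.2 with ⟨b1, b2, b3⟩ | ⟨b1, b2⟩ | ⟨b1, b2⟩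
            · omega
            · omega
            · exact b2
          have h := hX _ hw1.2 _ hv1
          show _ ↔ r v < r w ∨ (r v = r w ∧ Δ.lt v.1.2 w.1.2)
          rw [hr2 v hv2, hr1 w (by omega)]
          cases b
          · have h' : Δ.lt v.1.2 w.1.2 := h
            simp [h']
          · have h' : Δ.lt w.1.2 v.1.2 := h
            have h'' : ¬ Δ.lt v.1.2 w.1.2 := fun h3 => hlin.irrefl _ (hlin.trans _ _ _ h3 h')
            simp [h'']
      · by_cases hw2 : w.1.1 = 2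
        · have hv1 : v.1.1 = 1 ∧ v.1.2 ∈ X := by
            rcases (hE v.1).1 v.2 with ⟨b1, b2, b3⟩ | ⟨b1, b2⟩ | ⟨b1, b2⟩
            · exact absurd ⟨b1, hw2⟩ (hU v hv w hw)
            · exact ⟨b1, b2⟩
            · exact absurd b1 hv2
          have hw1 : w.1.2 ∈ X' := by
            rcases (hE w.1).1 w.2 with ⟨b1, b2, b3⟩ | ⟨b1, b2⟩ | ⟨b1, b2⟩
            · omega
            · omega
            · exact b2
          have h := hX _ hv1.2 _ hw1
          show _ ↔ r v < r w ∨ (r v = r w ∧ Δ.lt v.1.2 w.1.2)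
          rw [hr2 w hw2, hr1 v (by omega)]
          cases b
          · have h' : Δ.lt w.1.2 v.1.2 := h
            have h'' : ¬ Δ.lt v.1.2 w.1.2 := fun h3 => hlin.irrefl _ (hlin.trans _ _ _ h3 h')
            simp [h'']
          · have h' : Δ.lt v.1.2 w.1.2 := h
            simp [h']
        · have e : r v = r w := by rw [hr1 v hv2, hr1 w hw2]
          show _ ↔ r v < r w ∨ (r v = r w ∧ Δ.lt v.1.2 w.1.2)
          rw [e]
          simp
    refine ⟨?_, fun v w => hlt v w v.2 w.2, fun i t => Iff.rfl⟩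
    rintro ⟨v, hv⟩ ⟨w, hw⟩ h
    have h' : v.1.2 = w.1.2 := h
    have h1 := hlt v w hv hw
    have h2 := hlt w v hw hv
    have h3 : ¬ m.lt v w := fun h => hlin.irrefl w.1.2 (h' ▸ h1.2 h)
    have h4 : ¬ m.lt w v := fun h => hlin.irrefl w.1.2 (h' ▸ h2.2 h)
    exact Subtype.ext (hm.trichotomous v w h3 h4)
  have hmod : ∀ i < k, ∀ v : V, ∀ w : V, v ∈ cyclePart k (fun v : V => v.1.1) i →
      w ∈ cyclePart k (fun v : V => v.1.1) i → ¬ (v.1.1 = 0 ∧ w.1.1 = 2) := by
    rintro i hi v w hv hw ⟨h1, h2⟩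
    have hv' : v.1.1 = i ∨ v.1.1 = (i + 1) % k := hv
    have hw' : w.1.1 = i ∨ w.1.1 = (i + 1) % k := hw
    rcases Nat.lt_or_ge (i + 1) k with h | h
    · rw [Nat.mod_eq_of_lt h] at hv' hw'
      omega
    · have e : i + 1 = k := by omega
      rw [e, Nat.mod_self] at hv' hw'
      omega
  by_cases hne : Nonempty D
  swap
  · refine ⟨1, (autG Δ).one_mem, fun x hx => rfl, fun s hs => absurd ⟨s⟩ hne⟩
  obtain ⟨d⟩ := hne
  obtain ⟨f, hord, hf⟩ := hC V inferInstance m (fun v : V => v.1.1) hm (by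
    intro v
    show v.1.1 < k
    rcases (hE v.1).1 v.2 with ⟨a1, -⟩ | ⟨a1, -⟩ | ⟨a1, -⟩ <;> omega) (by
    intro i hi
    exact ⟨fun v => v.1.2, hval _ (fun v hv w hw => hmod i hi v w hv hw)⟩)
  obtain ⟨g₀, hg₀, h0⟩ := two_emb hΔ (hval _ (fun v hv w hw => hmod 0 (by omega) v w hv hw))
    (hf 0 (by omega))
  obtain ⟨g₁, hg₁, h1⟩ := two_emb hΔ (hval _ (fun v hv w hw => hmod 1 (by omega) v w hv hw))
    (hf 1 (by omega))
  have e1 : (0 + 1) % k = 1 := Nat.mod_eq_of_lt (by omega)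
  have e2 : (1 + 1) % k = 2 := Nat.mod_eq_of_lt (by omega)
  have c1 : ∀ x ∈ X, (1, x) ∈ E := fun x hx => (hE _).2 (Or.inr (Or.inl ⟨rfl, hx⟩))
  have c2 : ∀ x ∈ X', (2, x) ∈ E := fun x hx => (hE _).2 (Or.inr (Or.inr ⟨rfl, hx⟩))
  have p0 : ∀ x (hx : x ∈ X), g₀ x = f ⟨(1, x), c1 x hx⟩ := fun x hx =>
    h0 ⟨⟨(1, x), c1 x hx⟩, Or.inr e1.symm⟩
  have p1 : ∀ x (hx : x ∈ X), g₁ x = f ⟨(1, x), c1 x hx⟩ := fun x hx =>
    h1 ⟨⟨(1, x), c1 x hx⟩, Or.inl rfl⟩
  have p2 : ∀ x (hx : x ∈ X'), g₁ x = f ⟨(2, x), c2 x hx⟩ := fun x hx =>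
    h1 ⟨⟨(2, x), c2 x hx⟩, Or.inr e2.symm⟩
  have p3 : ∀ s ∈ S, ∃ v : V, v.1.1 ≠ 2 ∧ v.1.2 = s ∧ g₀ s = f v := by
    intro s hs
    by_cases hx : s ∈ X
    · exact ⟨⟨(1, s), c1 s hx⟩, by simp, rfl, p0 s hx⟩
    · have hs' : (0, s) ∈ E := (hE _).2 (Or.inl ⟨rfl, hs, hx⟩)
      exact ⟨⟨(0, s), hs'⟩, by simp, rfl, h0 ⟨⟨(0, s), hs'⟩, Or.inl rfl⟩⟩
  refine ⟨g₀⁻¹ * g₁, (autG Δ).mul_mem ((autG Δ).inv_mem hg₀) hg₁, fun x hx => ?_, ?_⟩
  · rw [Perm.mul_apply, p1 x hx, ← p0 x hx]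
    simp
  · intro s hs y hy
    have e3 : g₀ ((g₀⁻¹ * g₁) y) = g₁ y := by simp
    have hl1 : Δ.lt s ((g₀⁻¹ * g₁) y) ↔ Δ.lt (g₀ s) (g₁ y) := by
      rw [← e3]
      exact (hg₀.2.1 _ _).symm
    have hl2 : Δ.lt ((g₀⁻¹ * g₁) y) s ↔ Δ.lt (g₁ y) (g₀ s) := by
      rw [← e3]
      exact (hg₀.2.1 _ _).symm
    obtain ⟨v, hv1, hv2, hv3⟩ := p3 s hs
    rw [hl1, hl2, hv3, p2 y hy, hord, hord]
    have hw : r ⟨(2, y), c2 y hy⟩ = if b = true then 2 else 0 := hr2 _ rfl
    cases b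
    · left
      rw [hw, hr1 v hv1]
      simp
    · left
      rw [hw, hr1 v hv1]
      simp

/-- The order is a separation. -/
theorem OrderedCycles.separation {Δ : Str ι ar D} (hlin : IsStrictTotalOrder D Δ.lt)
    (hΔ : Homogeneous Δ) {k : ℕ} (hk : 4 ≤ k) (hC : OrderedCycles Δ k) :
    Separation Δ (OrderBelow Δ) where
  inv := fun g hg X Y h x hx y hy => by
    obtain ⟨x', hx', rfl⟩ := Finset.mem_image.1 hx
    obtain ⟨y', hy', rfl⟩ := Finset.mem_image.1 hy
    exact (hg.2.1 x' y').2 (h x' hx' y' hy')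
  mono := fun X X' Y Y' hX hY h x hx y hy => h x (hX hx) y (hY hy)
  disj := fun X Y h => Finset.disjoint_left.2 fun x hx hy => hlin.irrefl x (h x hx x hy)
  empty := fun X => ⟨fun x hx => absurd hx (Finset.notMem_empty x),
    fun x _ y hy => absurd hy (Finset.notMem_empty y)⟩
  above := fun S X Y _ hX => by
    obtain ⟨g, hg, h1, h2⟩ := hC.ext hlin hΔ hk true S X Y hX
    refine ⟨g, hg, h1, fun s hs y hy => ?_⟩
    obtain ⟨y', hy', rfl⟩ := Finset.mem_image.1 hy
    exact h2 s hs y' hy'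
  below := fun S X Y _ hX => by
    obtain ⟨g, hg, h1, h2⟩ := hC.ext hlin hΔ hk false S X Y
      (fun x hx y hy => hX y hy x hx)
    refine ⟨g, hg, h1, fun y hy s hs => ?_⟩
    obtain ⟨y', hy', rfl⟩ := Finset.mem_image.1 hy
    exact h2 s hs y' hy'
  join_above := fun S Y Y' h h' => by
    refine ⟨1, (autG Δ).one_mem, fun s _ => rfl, fun s hs y hy => ?_⟩
    rcases Finset.mem_union.1 hy with hy | hy
    · exact h s hs y hy
    · obtain ⟨y', hy', rfl⟩ := Finset.mem_image.1 hy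
      exact h' s hs y' hy'
  join_below := fun S Y Y' h h' => by
    refine ⟨1, (autG Δ).one_mem, fun s _ => rfl, fun y hy s hs => ?_⟩
    rcases Finset.mem_union.1 hy with hy | hy
    · exact h y hy s hs
    · obtain ⟨y', hy', rfl⟩ := Finset.mem_image.1 hy
      exact h' y' hy' s hs
  regions := by
    by_cases hne : Nonempty D
    · obtain ⟨o⟩ := hne
      refine ⟨{o}, {x | Δ.lt x o}, {x | Δ.lt o x}, ?_, ?_, ?_, ?_⟩
      · intro g hg ho
        have ho' : g o = o := ho o (Finset.mem_singleton_self o)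
        refine ⟨fun x hx => ?_, fun x hx => ?_⟩
        · have h := (hg.2.1 x o).2 hx
          rwa [ho'] at h
        · have h := (hg.2.1 o x).2 hx
          rwa [ho'] at h
      · intro A
        obtain ⟨g, hg, -, h2⟩ := hC.ext hlin hΔ hk false {o} ∅ A
          (fun x hx => absurd hx (Finset.notMem_empty x))
        exact ⟨g, hg, fun a ha => h2 o (Finset.mem_singleton_self o) a ha⟩
      · intro A
        obtain ⟨g, hg, -, h2⟩ := hC.ext hlin hΔ hk true {o} ∅ A
          (fun x hx => absurd hx (Finset.notMem_empty x))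
        exact ⟨g, hg, fun a ha => h2 o (Finset.mem_singleton_self o) a ha⟩
      · intro X Y hX hY x hx y hy
        exact hlin.trans _ _ _ (hX x hx) (hY y hy)
    · exact ⟨∅, Set.univ, Set.univ, fun _ _ _ => ⟨fun x => absurd ⟨x⟩ hne, fun x => absurd ⟨x⟩ hne⟩,
        fun _ => ⟨1, (autG Δ).one_mem, fun a _ => trivial⟩,
        fun _ => ⟨1, (autG Δ).one_mem, fun a _ => trivial⟩,
        fun _ _ _ _ x _ => absurd ⟨x⟩ hne⟩

/-- Free amalgamation classes have completions of ordered cycles of length four. -/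
theorem FreeAmalgamation.cycles {Δ : Str ι ar D} (hF : FreeAmalgamation Δ) :
    OrderedCycles Δ 4 := by
  intro V _ m c hm hc hp
  let m' : Str ι ar V :=
    { lt := m.lt
      rel := fun i t => m.rel i t ∧ ∃ j < 4, ∀ a, t a ∈ cyclePart 4 c j }
  have hpart : ∀ i < 4, ∃ f : V → D, IsEmb (m'.on (cyclePart 4 c i)) Δ (fun v => f v) := by
    intro i hi
    obtain ⟨f, hf⟩ := hp i hi
    refine ⟨f, hf.1, hf.2.1, fun j t => (hf.2.2 j t).trans ?_⟩
    exact ⟨fun h => ⟨h, i, hi, fun a => (t a).2⟩, fun h => h.1⟩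
  have hpc : ∀ i v, v ∈ cyclePart 4 c i ↔ c v = i ∨ c v = (i + 1) % 4 := fun i v => Iff.rfl
  -- three consecutive classes
  have h3 : ∀ a b : ℕ, (a = 0 ∧ b = 1) ∨ (a = 2 ∧ b = 3) →
      ∃ f : {v // v ∈ (cyclePart 4 c a ∪ cyclePart 4 c b : Set V)} → D,
        IsEmb (m'.on (cyclePart 4 c a ∪ cyclePart 4 c b)) Δ f := by
    intro a b hab
    have hlin' : IsStrictTotalOrder
        {v // v ∈ (cyclePart 4 c a ∪ cyclePart 4 c b : Set V)}
        (m'.on (cyclePart 4 c a ∪ cyclePart 4 c b)).lt :=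
      { trichotomous := fun v w h1 h2 => Subtype.ext (hm.trichotomous _ _ h1 h2)
        irrefl := fun v => hm.irrefl _
        trans := fun u v w h1 h2 => hm.trans _ _ _ h1 h2 }
    obtain ⟨fa, hfa⟩ := hpart a (by omega)
    obtain ⟨fb, hfb⟩ := hpart b (by omega)
    refine hF {v // v ∈ (cyclePart 4 c a ∪ cyclePart 4 c b : Set V)} inferInstance _
      {v | v.1 ∈ cyclePart 4 c a} {v | v.1 ∈ cyclePart 4 c b} hlin' ?_ ?_ ?_ ?_
    · ext v
      exact ⟨fun _ => trivial, fun _ => v.2⟩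
    · refine ⟨fun v => fa v.1.1, fun v w h => ?_, fun v w => hfa.2.1 ⟨v.1.1, v.2⟩ ⟨w.1.1, w.2⟩,
        fun i t => hfa.2.2 i (fun k => ⟨(t k).1.1, (t k).2⟩)⟩
      have := hfa.1 (a₁ := ⟨v.1.1, v.2⟩) (a₂ := ⟨w.1.1, w.2⟩) h
      exact Subtype.ext (Subtype.ext (Subtype.mk.inj this))
    · refine ⟨fun v => fb v.1.1, fun v w h => ?_, fun v w => hfb.2.1 ⟨v.1.1, v.2⟩ ⟨w.1.1, w.2⟩,
        fun i t => hfb.2.2 i (fun k => ⟨(t k).1.1, (t k).2⟩)⟩
      have := hfb.1 (a₁ := ⟨v.1.1, v.2⟩) (a₂ := ⟨w.1.1, w.2⟩) h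
      exact Subtype.ext (Subtype.ext (Subtype.mk.inj this))
    · rintro i t ⟨-, j, hj, h⟩
      have h1 : ∀ k, c (t k).1 = j ∨ c (t k).1 = (j + 1) % 4 := fun k => h k
      have h2 : ∀ k, (c (t k).1 = a ∨ c (t k).1 = (a + 1) % 4) ∨
          (c (t k).1 = b ∨ c (t k).1 = (b + 1) % 4) := fun k => (t k).2
      show (∀ k, c (t k).1 = a ∨ c (t k).1 = (a + 1) % 4) ∨
        (∀ k, c (t k).1 = b ∨ c (t k).1 = (b + 1) % 4)
      rcases hab with ⟨rfl, rfl⟩ | ⟨rfl, rfl⟩
      · interval_cases j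
        · exact Or.inl fun k => by have := h1 k; omega
        · exact Or.inr fun k => by have := h1 k; omega
        · exact Or.inr fun k => by have := h1 k; have := h2 k; omega
        · exact Or.inl fun k => by have := h1 k; have := h2 k; omega
      · interval_cases j
        · exact Or.inr fun k => by have := h1 k; have := h2 k; omega
        · exact Or.inl fun k => by have := h1 k; have := h2 k; omega
        · exact Or.inl fun k => by have := h1 k; omega
        · exact Or.inr fun k => by have := h1 k; omega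
  obtain ⟨f, hf⟩ := hF V inferInstance m' (cyclePart 4 c 0 ∪ cyclePart 4 c 1)
    (cyclePart 4 c 2 ∪ cyclePart 4 c 3) hm (by
      ext v
      refine ⟨fun _ => trivial, fun _ => ?_⟩
      have h := hc v
      show ((c v = 0 ∨ c v = (0 + 1) % 4) ∨ (c v = 1 ∨ c v = (1 + 1) % 4)) ∨
        ((c v = 2 ∨ c v = (2 + 1) % 4) ∨ (c v = 3 ∨ c v = (3 + 1) % 4))
      omega) (h3 0 1 (Or.inl ⟨rfl, rfl⟩)) (h3 2 3 (Or.inr ⟨rfl, rfl⟩)) (by
      rintro i t ⟨-, j, hj, h⟩
      interval_cases j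
      · exact Or.inl fun k => Or.inl (h k)
      · exact Or.inl fun k => Or.inr (h k)
      · exact Or.inr fun k => Or.inl (h k)
      · exact Or.inr fun k => Or.inr (h k))
  refine ⟨f, hf.2.1, fun i hi => ⟨fun v w h => Subtype.ext (hf.1 h), fun v w => hf.2.1 v w,
    fun j t => (hf.2.2 j (fun a => t a)).trans ?_⟩⟩
  exact ⟨fun h => h.1, fun h => ⟨h, i, hi, fun a => (t a).2⟩⟩

end Pool.Agent.MP_f99268_lc
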