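import Pool.Agent.Lib.MP_f99268_lc_V.Chain

/-!
# Chains that start inside of `B` can be filled
-/

namespace Pool.Agent.MP_f99268_lc

open Equiv Classical

variable {ι : Type} {ar : ι → ℕ} {D : Type}

theorem ok_get {K : Finset D → Finset D → Prop} : ∀ {L : List (Finset D)} {b : Bool}
    {X : Finset D}, Ok K L b X → ∀ s < L.length,
      dr K (if Even s then b else !b) ((X :: L).getD s ∅) ((X :: L).getD (s + 1) ∅) := by
  intro L
  induction L with
  | nil =>
    intro b X h s hs
    simp at hs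
  | cons X' L ih =>
    rintro b X ⟨h1, h2⟩ s hs
    cases s with
    | zero => exact h1
    | succ s =>
      have h3 := ih h2 s (by simpa using hs)
      by_cases hs' : Even s
      · have e : ¬ Even (s + 1) := by
          rw [Nat.even_add_one]
          exact not_not.2 hs'
        rw [if_pos hs'] at h3
        rw [if_neg e]
        exact h3
      · have e : Even (s + 1) := Nat.even_add_one.2 hs'
        rw [if_neg hs', Bool.not_not] at h3
        rw [if_pos e]
        exact h3

theorem fl_of {G : Subgroup (Perm D)} {t : D → D} {B : Finset D} :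
    ∀ (L : List (Finset D)) (X : Finset D) (u : Perm D) (F : ℕ → D → D),
      (∀ x ∈ X, u x = F 0 x) →
      (∀ s < L.length, ∃ g ∈ G, (∀ x ∈ (X :: L).getD s ∅, g x = F s x) ∧
        ∀ x ∈ (X :: L).getD (s + 1) ∅, g x = F (s + 1) x) →
      (∃ h ∈ st G B, ∀ x ∈ (X :: L).getD L.length ∅, F L.length x = h (t x)) →
      Fl G t B L X u := by
  intro L
  induction L with
  | nil =>
    rintro X u F h0 - ⟨h, hh, h1⟩
    exact ⟨h, hh, fun x hx => (h0 x hx).trans (h1 x hx)⟩
  | cons X' L ih =>
    intro X u F h0 h1 h2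
    obtain ⟨g, hg, h3, h4⟩ := h1 0 (by simp)
    refine ⟨g, hg, fun x hx => (h3 x hx).trans (h0 x hx).symm, ?_⟩
    exact ih X' g (fun s => F (s + 1)) h4 (fun s hs => h1 (s + 1) (by simpa using hs)) h2

theorem fill_zero {Δ : Str ι ar D} (hΔ : Homogeneous Δ) {K : Finset D → Finset D → Prop}
    (hK : Separation Δ K) {N : ℕ} (hN : 3 ≤ N) (hNo : ¬ Even N)
    (hC : ZigzagCompletion Δ K (N + 1)) {t : D → D} {B : Finset D} (ht : Emb (autG Δ) t)
    (hfar : ∀ A : Finset D, K B (A.image t))
    (Y : Finset D) (hY : Y ⊆ B) (L : List (Finset D)) (hL : L.length = N) (hok : Ok K L true Y) :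
    Fl (autG Δ) t B L Y 1 := by
  set X : ℕ → Finset D := fun s => (Y :: L).getD s ∅ with hXdef
  obtain ⟨g₀, hg₀, hg1, hg2⟩ := hK.ext_side true B Y (X 1) (ok_get hok 0 (by omega))
  let lev : ℕ → Finset D := fun s => if s = 0 then B else X s
  have hlev : ∀ s, s ≠ 0 → lev s = X s := fun s hs => if_neg hs
  have hlev0 : lev 0 = B := if_pos rfl
  let E : Finset (ℕ × D) := (Finset.range (N + 1)).biUnion fun s => ({s} : Finset ℕ) ×ˢ lev s
  have hE : ∀ p : ℕ × D, p ∈ E ↔ p.1 ≤ N ∧ p.2 ∈ lev p.1 := by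
    intro p
    simp only [E, Finset.mem_biUnion, Finset.mem_range, Finset.mem_product, Finset.mem_singleton]
    constructor
    · rintro ⟨s, hs, h1, h2⟩
      rw [h1]
      exact ⟨by omega, h2⟩
    · rintro ⟨h1, h2⟩
      exact ⟨p.1, by omega, rfl, h2⟩
  let V : Type := {p // p ∈ E}
  let c : V → ℕ := fun v => v.1.1
  let vl : V → D := fun v => v.1.2
  have hcN : ∀ v, c v ≤ N := fun v => ((hE v.1).1 v.2).1
  have hvl : ∀ v, vl v ∈ lev (c v) := fun v => ((hE v.1).1 v.2).2
  have hvw : ∀ v w, c v = c w → vl v = vl w → v = w := fun v w h1 h2 =>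
    Subtype.ext (Prod.ext h1 h2)
  let φ₀ : V → D := fun v => if c v = 1 then g₀ (vl v) else vl v
  let φN : V → D := fun v => if c v = N then t (vl v) else vl v
  let m : Str ι ar V :=
    { lt := fun v w => if c v ≤ 1 ∧ c w ≤ 1 then Δ.lt (φ₀ v) (φ₀ w) else
        if (c v = 0 ∨ c v = N) ∧ (c w = 0 ∨ c w = N) then Δ.lt (φN v) (φN w) else
          Δ.lt (vl v) (vl w)
      rel := fun i s => if ∀ a, c (s a) ≤ 1 then Δ.rel i (fun a => φ₀ (s a)) else
        if ∀ a, c (s a) = 0 ∨ c (s a) = N then Δ.rel i (fun a => φN (s a)) else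
          Δ.rel i (fun a => vl (s a)) }
  have htlt : ∀ x y, Δ.lt (t x) (t y) ↔ Δ.lt x y := by
    intro x y
    obtain ⟨g, hg, h⟩ := ht {x, y}
    rw [h x (by simp), h y (by simp)]
    exact hg.2.1 x y
  have htinj : ∀ x y, t x = t y → x = y := by
    intro x y hxy
    obtain ⟨g, hg, h⟩ := ht {x, y}
    rw [h x (by simp), h y (by simp)] at hxy
    exact g.injective hxy
  have htrel : ∀ i (s : Fin (ar i) → D), Δ.rel i (fun a => t (s a)) ↔ Δ.rel i s := by
    intro i s
    obtain ⟨g, hg, h⟩ := ht (Finset.univ.image s)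
    have e : (fun a => t (s a)) = fun a => g (s a) := by
      funext a
      exact h _ (Finset.mem_image_of_mem _ (Finset.mem_univ _))
    rw [e]
    exact hg.2.2 i s
  have pt0 : ∀ v, v ∈ cyclePart (N + 1) c 0 ↔ c v = 0 ∨ c v = 1 := by
    intro v
    have e : (0 + 1) % (N + 1) = 1 := Nat.mod_eq_of_lt (by omega)
    show c v = 0 ∨ c v = (0 + 1) % (N + 1) ↔ _
    rw [e]
  have pti : ∀ i < N, ∀ v, v ∈ cyclePart (N + 1) c i ↔ c v = i ∨ c v = i + 1 := by
    intro i hi v
    have e : (i + 1) % (N + 1) = i + 1 := Nat.mod_eq_of_lt (by omega)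
    show c v = i ∨ c v = (i + 1) % (N + 1) ↔ _
    rw [e]
  have ptN : ∀ v, v ∈ cyclePart (N + 1) c N ↔ c v = N ∨ c v = 0 := by
    intro v
    show c v = N ∨ c v = (N + 1) % (N + 1) ↔ _
    rw [Nat.mod_self]
  -- separated images of the even and the odd class of a part
  let Sp : Set V → (V → D) → Prop := fun U φ => ∀ X Y : Finset D,
    (∀ x ∈ X, ∃ v ∈ U, Even (c v) ∧ φ v = x) →
      (∀ y ∈ Y, ∃ v ∈ U, ¬ Even (c v) ∧ φ v = y) → K X Y
  -- embeddings of parts
  have hmk : ∀ (U : Set V) (φ : V → D),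
      (∀ v ∈ U, ∀ w ∈ U, c v = c w → φ v = φ w → vl v = vl w) →
      Sp U φ →
      (∀ v ∈ U, ∀ w ∈ U, c v ≠ c w → (Even (c v) ↔ ¬ Even (c w))) →
      (∀ v ∈ U, ∀ w ∈ U, (Δ.lt (φ v) (φ w) ↔ m.lt v w)) →
      (∀ i (s : Fin (ar i) → V), (∀ a, s a ∈ U) → (Δ.rel i (fun a => φ (s a)) ↔ m.rel i s)) →
      IsEmb (m.on U) Δ (fun v => φ v) := by
    intro U φ h0 hk he h1 h2
    refine ⟨?_, fun v w => h1 v v.2 w w.2, fun i s => h2 i (fun a => s a) (fun a => (s a).2)⟩
    rintro ⟨v, hv⟩ ⟨w, hw⟩ h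
    have h' : φ v = φ w := h
    apply Subtype.ext
    by_cases hc : c v = c w
    · exact hvw v w hc (h0 v hv w hw hc h')
    · exfalso
      have h6 : ∀ v ∈ U, ∀ w ∈ U, Even (c v) → ¬ Even (c w) → φ v ≠ φ w := by
        intro v hv w hw h3 h4 h5
        have h7 := hK.disj {φ v} {φ w} (hk _ _
          (fun x hx => ⟨v, hv, h3, (Finset.mem_singleton.1 hx).symm⟩)
          (fun x hx => ⟨w, hw, h4, (Finset.mem_singleton.1 hx).symm⟩))
        rw [h5] at h7
        simp at h7
      by_cases hev : Even (c v)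
      · exact h6 v hv w hw hev ((he v hv w hw hc).1 hev) h'
      · have hew : Even (c w) := by
          by_contra h4
          exact hev ((he v hv w hw hc).2 h4)
        exact h6 w hw v hv hew hev h'.symm
  have e00 : ∀ v, c v = 0 → φ₀ v = vl v := fun v h => if_neg (by omega)
  have e01 : ∀ v, c v = 1 → φ₀ v = g₀ (vl v) := fun v h => if_pos h
  have eN0 : ∀ v, c v = 0 → φN v = vl v := fun v h => if_neg (by omega)
  have eN1 : ∀ v, c v = N → φN v = t (vl v) := fun v h => if_pos h
  have k0 : Sp (cyclePart (N + 1) c 0) φ₀ := by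
    intro X' Y' hX' hY'
    refine hK.mono _ B _ ((X 1).image g₀) ?_ ?_ hg2
    · intro x hx
      obtain ⟨v, hv, h1, rfl⟩ := hX' x hx
      have hv0 : c v = 0 := by
        rcases (pt0 v).1 hv with h | h
        · exact h
        · rw [h] at h1
          exact absurd h1 (by decide)
      rw [e00 v hv0]
      have := hvl v
      rwa [hv0, hlev0] at this
    · intro y hy
      obtain ⟨w, hw, h2, rfl⟩ := hY' y hy
      have hw1 : c w = 1 := by
        rcases (pt0 w).1 hw with h | h
        · rw [h] at h2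
          exact absurd Even.zero h2
        · exact h
      rw [e01 w hw1]
      have := hvl w
      rw [hw1, hlev 1 (by omega)] at this
      exact Finset.mem_image_of_mem _ this
  have hφ0 : IsEmb (m.on (cyclePart (N + 1) c 0)) Δ (fun v => φ₀ v) := by
    have hle : ∀ v ∈ cyclePart (N + 1) c 0, c v ≤ 1 := fun v hv => by
      rcases (pt0 v).1 hv with h | h <;> omega
    apply hmk _ _ _ k0
    · intro v hv w hw h
      rcases (pt0 v).1 hv with h1 | h1 <;> rcases (pt0 w).1 hw with h2 | h2
      · omega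
      · rw [h1, h2]
        decide
      · rw [h1, h2]
        decide
      · omega
    · intro v hv w hw
      show _ ↔ if c v ≤ 1 ∧ c w ≤ 1 then _ else _
      rw [if_pos ⟨hle v hv, hle w hw⟩]
    · intro i s hs
      show _ ↔ if ∀ a, c (s a) ≤ 1 then _ else _
      rw [if_pos (fun a => hle _ (hs a))]
    · intro v hv w hw hc h
      rcases (pt0 v).1 hv with h1 | h1
      · rwa [e00 v h1, e00 w (hc ▸ h1)] at h
      · rw [e01 v h1, e01 w (hc ▸ h1)] at h
        exact g₀.injective h
  have ki : ∀ i, i ≠ 0 → i < N → Sp (cyclePart (N + 1) c i) vl := by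
    intro i hi0 hiN X' Y' hX' hY'
    have hX : ∀ u : V, c u ≠ 0 → vl u ∈ X (c u) := fun u hu => by
      have := hvl u
      rwa [hlev _ hu] at this
    have h7 := ok_get hok i (by omega)
    have key : ∀ (p : ℕ → Prop) (j : ℕ), j ≠ 0 → (∀ n, n = i ∨ n = i + 1 → p n → n = j) →
        ∀ Z : Finset D, (∀ x ∈ Z, ∃ v ∈ cyclePart (N + 1) c i, p (c v) ∧ vl v = x) →
          Z ⊆ X j := by
      intro p j hj hp Z hZ x hx
      obtain ⟨v, hv, h1, rfl⟩ := hZ x hx
      have hvj := hp _ ((pti i hiN v).1 hv) h1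
      have := hX v (by omega)
      rwa [hvj] at this
    by_cases he : Even i
    · rw [if_pos he] at h7
      refine hK.mono _ _ _ _ (key (fun n => Even n) i hi0 ?_ X' hX')
        (key (fun n => ¬ Even n) (i + 1) (by omega) ?_ Y' hY') h7
      · rintro n (rfl | rfl) h
        · rfl
        · exact absurd he (Nat.even_add_one.1 h)
      · rintro n (rfl | rfl) h
        · exact absurd he h
        · rfl
    · rw [if_neg he] at h7
      refine hK.mono _ _ _ _ (key (fun n => Even n) (i + 1) (by omega) ?_ X' hX')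
        (key (fun n => ¬ Even n) i hi0 ?_ Y' hY') h7
      · rintro n (rfl | rfl) h
        · exact absurd h he
        · rfl
      · rintro n (rfl | rfl) h
        · rfl
        · exact absurd (Nat.even_add_one.2 he) h
  have hφi : ∀ i, i ≠ 0 → i < N → IsEmb (m.on (cyclePart (N + 1) c i)) Δ (fun v => vl v) := by
    intro i hi0 hiN
    apply hmk _ _ _ (ki i hi0 hiN)
    · intro v hv w hw h
      rcases (pti i hiN v).1 hv with h1 | h1 <;> rcases (pti i hiN w).1 hw with h2 | h2
      · omega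
      · rw [h1, h2, Nat.even_add_one, not_not]
      · rw [h1, h2, Nat.even_add_one]
      · omega
    · intro v hv w hw
      show _ ↔ if c v ≤ 1 ∧ c w ≤ 1 then _ else _
      by_cases h : c v ≤ 1 ∧ c w ≤ 1
      · rw [if_pos h]
        have h1 : c v = 1 := by
          rcases (pti i hiN _).1 hv with h' | h' <;> omega
        have h2 : c w = 1 := by
          rcases (pti i hiN _).1 hw with h' | h' <;> omega
        rw [e01 v h1, e01 w h2]
        exact (hg₀.2.1 _ _).symm
      · rw [if_neg h]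
        by_cases h' : (c v = 0 ∨ c v = N) ∧ (c w = 0 ∨ c w = N)
        · rw [if_pos h']
          have h1 : c v = N := by
            rcases (pti i hiN _).1 hv with h'' | h'' <;> omega
          have h2 : c w = N := by
            rcases (pti i hiN _).1 hw with h'' | h'' <;> omega
          rw [eN1 v h1, eN1 w h2]
          exact (htlt _ _).symm
        · rw [if_neg h']
    · intro j s hs
      show _ ↔ if ∀ a, c (s a) ≤ 1 then _ else _
      by_cases h : ∀ a, c (s a) ≤ 1
      · rw [if_pos h]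
        have e : (fun a => φ₀ (s a)) = fun a => g₀ (vl (s a)) := by
          funext a
          refine e01 _ ?_
          have := h a
          rcases (pti i hiN _).1 (hs a) with h' | h' <;> omega
        rw [e]
        exact (hg₀.2.2 j _).symm
      · rw [if_neg h]
        by_cases h' : ∀ a, c (s a) = 0 ∨ c (s a) = N
        · rw [if_pos h']
          have e : (fun a => φN (s a)) = fun a => t (vl (s a)) := by
            funext a
            refine eN1 _ ?_
            have := h' a
            rcases (pti i hiN _).1 (hs a) with h'' | h'' <;> omega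
          rw [e]
          exact (htrel j _).symm
        · rw [if_neg h']
    · intro v hv w hw hc h
      exact h
  have kN : Sp (cyclePart (N + 1) c N) φN := by
    intro X' Y' hX' hY'
    refine hK.mono _ B _ ((X N).image t) ?_ ?_ (hfar (X N))
    · intro x hx
      obtain ⟨v, hv, h1, rfl⟩ := hX' x hx
      have hv0 : c v = 0 := by
        rcases (ptN v).1 hv with h | h
        · rw [h] at h1
          exact absurd h1 hNo
        · exact h
      rw [eN0 v hv0]
      have := hvl v
      rwa [hv0, hlev0] at this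
    · intro y hy
      obtain ⟨w, hw, h2, rfl⟩ := hY' y hy
      have hw1 : c w = N := by
        rcases (ptN w).1 hw with h | h
        · exact h
        · rw [h] at h2
          exact absurd Even.zero h2
      rw [eN1 w hw1]
      have := hvl w
      rw [hw1, hlev N (by omega)] at this
      exact Finset.mem_image_of_mem _ this
  have hφN : IsEmb (m.on (cyclePart (N + 1) c N)) Δ (fun v => φN v) := by
    apply hmk _ _ _ kN
    · intro v hv w hw h
      rcases (ptN v).1 hv with h1 | h1 <;> rcases (ptN w).1 hw with h2 | h2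
      · omega
      · rw [h1, h2]
        exact iff_of_false hNo (not_not.2 Even.zero)
      · rw [h1, h2]
        exact iff_of_true Even.zero hNo
      · omega
    · intro v hv w hw
      show _ ↔ if c v ≤ 1 ∧ c w ≤ 1 then _ else _
      by_cases h : c v ≤ 1 ∧ c w ≤ 1
      · rw [if_pos h]
        have h1 : c v = 0 := by
          rcases (ptN _).1 hv with h' | h' <;> omega
        have h2 : c w = 0 := by
          rcases (ptN _).1 hw with h' | h' <;> omega
        rw [e00 v h1, e00 w h2, eN0 v h1, eN0 w h2]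
      · rw [if_neg h, if_pos ⟨((ptN v).1 hv).symm, ((ptN w).1 hw).symm⟩]
    · intro j s hs
      show _ ↔ if ∀ a, c (s a) ≤ 1 then _ else _
      by_cases h : ∀ a, c (s a) ≤ 1
      · rw [if_pos h]
        have e : (fun a => φ₀ (s a)) = fun a => φN (s a) := by
          funext a
          have h1 := h a
          have h2 : c (s a) = 0 := by
            rcases (ptN _).1 (hs a) with h' | h' <;> omega
          rw [e00 _ h2, eN0 _ h2]
        rw [e]
      · rw [if_neg h]
        have h' : ∀ a, c (s a) = 0 ∨ c (s a) = N := fun a => ((ptN _).1 (hs a)).symm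
        rw [if_pos h']
    · intro v hv w hw hc h
      rcases (ptN v).1 hv with h1 | h1
      · rw [eN1 v h1, eN1 w (hc ▸ h1)] at h
        exact htinj _ _ h
      · rwa [eN0 v h1, eN0 w (hc ▸ h1)] at h
  obtain ⟨f, hf⟩ := hC V inferInstance m c (fun v => Nat.lt_succ_of_le (hcN v)) (by
    intro i hi
    rcases Nat.eq_zero_or_pos i with rfl | hi0
    · exact ⟨φ₀, hφ0, k0⟩
    · rcases Nat.lt_or_ge i N with hiN | hiN
      · exact ⟨vl, hφi i (by omega) hiN, ki i (by omega) hiN⟩
      · have : i = N := by omega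
        subst this
        exact ⟨φN, hφN, kN⟩)
  obtain ⟨a₀, ha₀, h0⟩ := two_emb hΔ hφ0 (hf 0 (by omega))
  obtain ⟨aN, haN, hN'⟩ := two_emb hΔ hφN (hf N (by omega))
  have hinv : ∀ (g : Perm D) (x : D), g⁻¹ (g x) = x := fun g x => g.symm_apply_apply x
  let F : ℕ → D → D := fun s x => if h : (s, x) ∈ E then a₀⁻¹ (f ⟨(s, x), h⟩) else x
  have hF : ∀ s x (h : (s, x) ∈ E), F s x = a₀⁻¹ (f ⟨(s, x), h⟩) := fun s x h => dif_pos h
  have hmem : ∀ s, s ≠ 0 → s ≤ N → ∀ x ∈ X s, (s, x) ∈ E := fun s h1 h2 x hx =>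
    (hE _).2 ⟨h2, by rw [hlev s h1]; exact hx⟩
  have hmem0 : ∀ x ∈ B, (0, x) ∈ E := fun x hx => (hE _).2 ⟨by omega, by rw [hlev0]; exact hx⟩
  have hf0 : ∀ x (hx : x ∈ B), f ⟨(0, x), hmem0 x hx⟩ = a₀ x := by
    intro x hx
    have h1 := h0 ⟨⟨(0, x), hmem0 x hx⟩, (pt0 _).2 (Or.inl rfl)⟩
    rw [← h1]
    rfl
  refine fl_of L Y 1 F ?_ ?_ ?_
  · intro x hx
    rw [hF 0 x (hmem0 x (hY hx)), hf0 x (hY hx), hinv]
    rfl
  · intro s hs
    rcases Nat.eq_zero_or_pos s with rfl | hs0
    · refine ⟨g₀, hg₀, fun x hx => ?_, fun x hx => ?_⟩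
      · have hx' : x ∈ Y := hx
        rw [hF 0 x (hmem0 x (hY hx')), hf0 x (hY hx'), hinv]
        exact hg1 x hx'
      · have hx' : (1, x) ∈ E := hmem 1 (by omega) (by omega) x hx
        rw [hF 1 x hx']
        have h1 := h0 ⟨⟨(1, x), hx'⟩, (pt0 _).2 (Or.inr rfl)⟩
        rw [← h1, hinv]
        exact (if_pos rfl : φ₀ ⟨(1, x), hx'⟩ = g₀ x).symm
    · obtain ⟨a, ha, h1⟩ := two_emb hΔ (hφi s (by omega) (by omega)) (hf s (by omega))
      refine ⟨a₀⁻¹ * a, (autG Δ).mul_mem ((autG Δ).inv_mem ha₀) ha, fun x hx => ?_,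
        fun x hx => ?_⟩
      · have hx' : (s, x) ∈ E := hmem s (by omega) (by omega) x hx
        rw [hF s x hx']
        exact congrArg (a₀⁻¹ : Perm D)
          (h1 ⟨⟨(s, x), hx'⟩, (pti s (by omega) _).2 (Or.inl rfl)⟩)
      · have hx' : (s + 1, x) ∈ E := hmem (s + 1) (by omega) (by omega) x hx
        rw [hF (s + 1) x hx']
        exact congrArg (a₀⁻¹ : Perm D)
          (h1 ⟨⟨(s + 1, x), hx'⟩, (pti s (by omega) _).2 (Or.inr rfl)⟩)
  · refine ⟨a₀⁻¹ * aN, ?_, fun x hx => ?_⟩
    · rw [mem_st]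
      refine ⟨(autG Δ).mul_mem ((autG Δ).inv_mem ha₀) haN, fun b hb => ?_⟩
      have h1 := hN' ⟨⟨(0, b), hmem0 b hb⟩, (ptN _).2 (Or.inr rfl)⟩
      have h2 : φN ⟨(0, b), hmem0 b hb⟩ = b := if_neg (by omega : ¬ (0 = N))
      have h3 : aN b = a₀ b := by
        rw [← hf0 b hb, ← h1]
        exact congrArg aN h2.symm
      rw [Perm.mul_apply, h3, hinv]
    · rw [hL]
      rw [hL] at hx
      have hx' : (N, x) ∈ E := hmem N (by omega) le_rfl x hx
      rw [hF N x hx']
      have h1 := hN' ⟨⟨(N, x), hx'⟩, (ptN _).2 (Or.inl rfl)⟩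
      have h2 : φN ⟨(N, x), hx'⟩ = t x := if_pos rfl
      rw [← h1]
      exact congrArg (a₀⁻¹ : Perm D) (congrArg aN h2)

end Pool.Agent.MP_f99268_lc
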